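import Pool.Agent.H57.SC.Targets

/-! MP_eb32d7_co: module ALG (an odd number of good orientations gives a colouring). -/

set_option autoImplicit false

namespace Pool.Agent.H84.SC

open Finset Pool.Agent.H57.SC

/-- the field with four elements -/
structure K4 where
  a : ZMod 2
  b : ZMod 2
  deriving DecidableEq

namespace K4

def toP : K4 ≃ ZMod 2 × ZMod 2 :=
  ⟨fun x => (x.a, x.b), fun p => ⟨p.1, p.2⟩, fun _ => rfl, fun _ => rfl⟩

instance : Fintype K4 := Fintype.ofEquiv _ toP.symm
instance : Zero K4 := ⟨⟨0, 0⟩⟩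
instance : One K4 := ⟨⟨1, 0⟩⟩
instance : Add K4 := ⟨fun x y => ⟨x.a + y.a, x.b + y.b⟩⟩
instance : Mul K4 := ⟨fun x y => ⟨x.a * y.a + x.b * y.b, x.a * y.b + x.b * y.a + x.b * y.b⟩⟩
instance : Neg K4 := ⟨fun x => x⟩

instance : CommRing K4 where
  add_assoc := by decide
  zero_add := by decide
  add_zero := by decide
  add_comm := by decide
  neg_add_cancel := by decide
  mul_assoc := by decide
  one_mul := by decide
  mul_one := by decide
  left_distrib := by decide
  right_distrib := by decide
  zero_mul := by decide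
  mul_zero := by decide
  mul_comm := by decide
  nsmul := nsmulRec
  zsmul := zsmulRec

end K4

/-- powers of the primitive third root of unity -/
def ze (i : Fin 3) : K4 := if i = 0 then 1 else if i = 1 then ⟨0, 1⟩ else ⟨1, 1⟩

theorem ze_add (i j : Fin 3) (h : i = j) : ze i + ze j = 0 := by
  subst h; revert i; decide

theorem one_ne : (1 : K4) ≠ 0 := by decide

theorem two_eq : (2 : K4) = 0 := by decide

theorem ggg : ∀ e : Fin 3 → Fin 3,
    (∑ y : Fin 3 → Fin 3, (if Function.Injective y then (1 : K4) else 0) *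
      ∏ j, ze (y j) ^ ((e j : Fin 3) : ℕ)) = if Function.Injective e then 1 else 0 := by
  decide +kernel


/-- the product over the path -/
theorem path_prod (k : ℕ) (o : ℕ → Bool) (a : ℕ → K4) :
    ∏ p ∈ range (k + 1), a p ^ (hh k o p) =
      a 0 * ∏ p ∈ range k, (if o p = true then a (p + 1) else a p) := by
  have h1 : ∀ p ∈ range (k + 1), a p ^ (hh k o p) =
      a p ^ (if p = 0 then 1 else if o (p - 1) = true then 1 else 0) *
        a p ^ (if p < k then (if o p = false then 1 else 0) else 0) := by
    intro p _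
    rw [hh, pow_add]
  rw [Finset.prod_congr rfl h1, Finset.prod_mul_distrib, Finset.prod_range_succ', Finset.prod_range_succ]
  have h2 : ∀ p ∈ range k, (if o p = true then a (p + 1) else a p) =
      a (p + 1) ^ (if p + 1 = 0 then 1 else if o (p + 1 - 1) = true then 1 else 0) *
        a p ^ (if p < k then (if o p = false then 1 else 0) else 0) := by
    intro p hp
    have hp' : p < k := Finset.mem_range.mp hp
    have h0 : ¬ (p + 1 = 0) := by omega
    have h3 : p + 1 - 1 = p := by omega
    rw [if_neg h0, h3, if_pos hp']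
    cases o p <;> simp
  rw [Finset.prod_congr rfl h2, Finset.prod_mul_distrib]
  simp
  ring

theorem hh_lt (k : ℕ) (o : ℕ → Bool) (p : ℕ) : hh k o p < 3 := by
  unfold hh
  split_ifs <;> omega

theorem factor {B : Type} [Fintype B] [DecidableEq B] (h : B × Fin 3 → ℕ) (hl : ∀ x, h x < 3) :
    (∑ c : B × Fin 3 → Fin 3, (if ∀ b, Function.Injective (fun j => c (b, j)) then (1 : K4) else 0) *
      ∏ x, ze (c x) ^ h x) = if ∀ b, Function.Injective (fun j => h (b, j)) then 1 else 0 := by
  classical
  have e1 : (∑ c : B × Fin 3 → Fin 3, (if ∀ b, Function.Injective (fun j => c (b, j)) then (1 : K4) else 0) *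
      ∏ x, ze (c x) ^ h x) = ∑ c : B → Fin 3 → Fin 3, ∏ b, ((if Function.Injective (c b) then (1 : K4) else 0) *
        ∏ j, ze (c b j) ^ h (b, j)) := by
    refine Fintype.sum_equiv (Equiv.curry B (Fin 3) (Fin 3)) _ _ ?_
    intro c
    rw [Finset.prod_mul_distrib, Fintype.prod_prod_type]
    have : (∏ b : B, (if Function.Injective ((Equiv.curry B (Fin 3) (Fin 3)) c b) then (1 : K4) else 0)) =
        if ∀ b, Function.Injective (fun j => c (b, j)) then (1 : K4) else 0 := by
      rw [Finset.prod_boole]
      simp [Equiv.curry]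
      rfl
    rw [this]
    rfl
  have e2 : (∑ c : B → Fin 3 → Fin 3, ∏ b, ((if Function.Injective (c b) then (1 : K4) else 0) *
        ∏ j, ze (c b j) ^ h (b, j))) = ∏ b : B, ∑ y : Fin 3 → Fin 3,
          ((if Function.Injective y then (1 : K4) else 0) * ∏ j, ze (y j) ^ h (b, j)) := by
    rw [Finset.prod_univ_sum]
    rw [Fintype.piFinset_univ]
  rw [e1, e2]
  have e3 : ∀ b : B, (∑ y : Fin 3 → Fin 3,
      ((if Function.Injective y then (1 : K4) else 0) * ∏ j, ze (y j) ^ h (b, j))) =
        if Function.Injective (fun j => h (b, j)) then 1 else 0 := by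
    intro b
    have := ggg (fun j => ⟨h (b, j), hl _⟩)
    simp only at this
    rw [this]
    have hi : Function.Injective (fun j : Fin 3 => (⟨h (b, j), hl _⟩ : Fin 3)) ↔
        Function.Injective (fun j => h (b, j)) := by
      constructor
      · intro hh i j hij
        exact hh (Fin.ext hij)
      · intro hh i j hij
        exact hh (Fin.ext_iff.mp hij)
    by_cases hc : Function.Injective (fun j => h (b, j))
    · rw [if_pos hc, if_pos (hi.mpr hc)]
    · rw [if_neg hc, if_neg (fun hx => hc (hi.mp hx))]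
  rw [Finset.prod_congr rfl (fun b _ => e3 b), Finset.prod_boole]
  simp

theorem pf_alg : T_ALG := by
  classical
  intro B _ _ k pos hinj hpos hodd
  by_contra hno
  push Not at hno
  -- the points of the path
  have hpt : ∀ p, p ≤ k → ∃ x, pos x = p := fun p hp => (hpos p).mp hp
  obtain ⟨x0, hx0⟩ := hpt 0 (Nat.zero_le _)
  let pt : ℕ → B × Fin 3 := fun p => if hp : p ≤ k then Classical.choose (hpt p hp) else x0
  have hpt1 : ∀ p, p ≤ k → pos (pt p) = p := by
    intro p hp
    simp only [pt, dif_pos hp]
    exact Classical.choose_spec (hpt p hp)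
  have hpt2 : ∀ x, pt (pos x) = x := by
    intro x
    apply hinj
    exact hpt1 _ ((hpos _).mpr ⟨x, rfl⟩)
  let rb : (B × Fin 3 → Fin 3) → K4 := fun c => if ∀ b, Function.Injective (fun j => c (b, j)) then 1 else 0
  -- the sum vanishes
  have hS0 : ∀ c : B × Fin 3 → Fin 3, rb c * (ze (c (pt 0)) *
      ∏ i : Fin k, (ze (c (pt i)) + ze (c (pt ((i : ℕ) + 1))))) = 0 := by
    intro c
    by_cases hc : ∀ b, Function.Injective (fun j => c (b, j))
    · obtain ⟨x, y, hxy, hcc⟩ := hno c hc
      have hyk : pos y ≤ k := (hpos _).mpr ⟨y, rfl⟩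
      have hxk : pos x < k := by omega
      have : (∏ i : Fin k, (ze (c (pt i)) + ze (c (pt ((i : ℕ) + 1))))) = 0 := by
        apply Finset.prod_eq_zero (Finset.mem_univ ⟨pos x, hxk⟩)
        have h1 : pt (pos x) = x := hpt2 x
        have h2 : pt (pos x + 1) = y := by rw [← hxy]; exact hpt2 y
        simp only [h1, h2]
        exact ze_add _ _ hcc
      rw [this, mul_zero, mul_zero]
    · simp only [rb, if_neg hc, zero_mul]
  have hexp : ∀ c : B × Fin 3 → Fin 3, ze (c (pt 0)) *
      ∏ i : Fin k, (ze (c (pt i)) + ze (c (pt ((i : ℕ) + 1)))) =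
      ∑ o : Fin k → Bool, ∏ x, ze (c x) ^ hh k (ext k o) (pos x) := by
    intro c
    have h1 : ∀ i : Fin k, ze (c (pt i)) + ze (c (pt ((i : ℕ) + 1))) =
        ∑ t : Bool, (if t = true then ze (c (pt ((i : ℕ) + 1))) else ze (c (pt i))) := by
      intro i
      rw [Fintype.sum_bool]
      simp [add_comm]
    rw [Finset.prod_congr rfl (fun i _ => h1 i), Finset.prod_univ_sum, Fintype.piFinset_univ,
      Finset.mul_sum]
    refine Finset.sum_congr rfl ?_
    intro o _
    have h2 : (∏ x, ze (c x) ^ hh k (ext k o) (pos x)) =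
        ∏ p ∈ range (k + 1), ze (c (pt p)) ^ hh k (ext k o) p := by
      refine Finset.prod_nbij' pos pt ?_ ?_ ?_ ?_ ?_
      · intro x _
        rw [Finset.mem_range]
        have := (hpos (pos x)).mpr ⟨x, rfl⟩
        omega
      · intro p _
        exact Finset.mem_univ _
      · intro x _
        exact hpt2 x
      · intro p hp
        rw [Finset.mem_range] at hp
        exact hpt1 p (by omega)
      · intro x _
        rw [hpt2]
    rw [h2, path_prod k (ext k o) (fun p => ze (c (pt p)))]
    congr 1
    rw [← Fin.prod_univ_eq_prod_range (fun p => if ext k o p = true then ze (c (pt (p + 1))) else ze (c (pt p))) k]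
    refine Finset.prod_congr rfl ?_
    intro i _
    have : ext k o (i : ℕ) = o i := by
      unfold Pool.Agent.H57.SC.ext
      rw [dif_pos i.isLt]
    rw [this]
  have hS : (∑ c : B × Fin 3 → Fin 3, rb c * ∑ o : Fin k → Bool, ∏ x, ze (c x) ^ hh k (ext k o) (pos x)) = 0 := by
    apply Finset.sum_eq_zero
    intro c _
    rw [← hexp c]
    exact hS0 c
  have hS2 : (∑ c : B × Fin 3 → Fin 3, rb c * ∑ o : Fin k → Bool, ∏ x, ze (c x) ^ hh k (ext k o) (pos x)) =
      ∑ o : Fin k → Bool, (if Good k pos o then (1 : K4) else 0) := by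
    simp only [Finset.mul_sum]
    rw [Finset.sum_comm]
    refine Finset.sum_congr rfl ?_
    intro o _
    have hf := factor (fun x => hh k (ext k o) (pos x)) (fun x => hh_lt _ _ _)
    rw [show (∑ c : B × Fin 3 → Fin 3, rb c * ∏ x, ze (c x) ^ hh k (ext k o) (pos x)) = _ from hf]
    by_cases hg : Good k pos o
    · rw [if_pos hg, if_pos (show ∀ b, Function.Injective (fun j => hh k (ext k o) (pos (b, j))) from hg)]
    · rw [if_neg hg, if_neg (show ¬ ∀ b, Function.Injective (fun j => hh k (ext k o) (pos (b, j))) from hg)]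
  rw [hS2] at hS
  rw [Finset.sum_boole] at hS
  have hcard : Nat.card {o : Fin k → Bool // Good k pos o} =
      (Finset.univ.filter (fun o : Fin k → Bool => Good k pos o)).card := by
    rw [Nat.card_eq_fintype_card, Fintype.card_subtype]
  rw [hcard] at hodd
  obtain ⟨m, hm⟩ := hodd
  rw [hm] at hS
  push_cast at hS
  rw [two_eq, zero_mul, zero_add] at hS
  exact one_ne hS

end Pool.Agent.H84.SC
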