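import Mathlib

/-!
Strong colouring for prime powers: definitions of the certificate language (multilinear forms
in slots, auxiliary slots of small total degree).
-/

namespace SC84

section
variable {S V : Type} [DecidableEq S] [DecidableEq V]

/-- number of slots of `A` with label `v` -/
def cnt (lab : S → V) (A : Finset S) (v : V) : ℕ := (A.filter (fun s => lab s = v)).card

variable {F : Type} [CommRing F]

/-- translation invariance (all Hasse derivatives vanish) of a multilinear form in the slots `T` -/
def Inv (T : Finset S) (P : Finset S → F) : Prop :=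
  ∀ A, A ⊆ T → ∀ j, 1 ≤ j → ∑ C ∈ (T \ A).powersetCard j, P (A ∪ C) = 0

/-- translation invariance of a functional given on exponents -/
def HD (lab : S → V) (T : Finset S) (D : (V → ℕ) → F) : Prop :=
  ∀ A, A ⊆ T → ∀ j, 1 ≤ j → ∑ C ∈ A.powersetCard j, D (cnt lab (A \ C)) = 0

end

/-- a certificate for the functional `D` with `cap v` free slots at the vertex `v` -/
def State (q : ℕ) {V : Type} [DecidableEq V] {F : Type} [CommRing F]
    (cap : V → ℕ) (D : (V → ℕ) → F) : Prop :=
  ∃ (S : Type) (_ : DecidableEq S) (lab : S → V) (Tx Ty Y : Finset S) (P : Finset S → F),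
    Disjoint Tx Ty ∧ Y ⊆ Ty ∧ (∀ v, cnt lab Tx v = cap v) ∧ Ty.card ≤ q - 2 ∧
    Inv (Tx ∪ Ty) P ∧ ∑ A ∈ Tx.powerset, D (cnt lab A) * P (A ∪ Y) ≠ 0

/-- translation invariance of a functional in terms of the capacities -/
def HDc {V : Type} [DecidableEq V] {F : Type} [CommRing F]
    (cap : V → ℕ) (D : (V → ℕ) → F) : Prop :=
  ∀ (S : Type) (_ : DecidableEq S) (lab : S → V) (T : Finset S),
    (∀ v, cnt lab T v ≤ cap v) → HD lab T D

section
variable {β : Type} [Fintype β] {k : ℕ}

/-- the block functional on exponents -/
def D0 (R : Type) [CommRing R] (a : β × Fin k → ℕ) : R :=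
  ∏ b : β, (Matrix.of fun i j : Fin k => if a (b, i) = (j : ℕ) then (1 : R) else 0).det

variable [DecidableEq β]

/-- the functional after multiplication by the factors `x_u - x_v` of a list of edges -/
def DL (R : Type) [CommRing R] :
    List ((β × Fin k) × (β × Fin k)) → (β × Fin k → ℕ) → R
  | [], a => D0 R a
  | e :: L, a => DL R L (a + Pi.single e.1 1) - DL R L (a + Pi.single e.2 1)

end

end SC84
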